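import Pool.Agent.W483.FB.Stm2
import Pool.Agent.W417.GP.Chain
import Pool.Agent.W583.GP.Sum
import Pool.Agent.W578.GP.Avg

/-!
# FB-18: chains of fermionic modes

The sites given by a chain with `n + 1` modes and their limit as `n → ∞`.
-/

set_option autoImplicit false

open Finset Filter
open scoped Topology

namespace Pool.Agent.W578.FB

open Pool.Agent.W483.FB Pool.Agent.H390R2.LP Pool.Agent.H235R2.QLP

/-- the symbol of the chain -/
noncomputable def gg (α γ θ : ℝ) : ℝ := α + (γ - α) * ((1 - Real.cos θ) / 2)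

theorem gg_cont (α γ : ℝ) : Continuous (gg α γ) := by
  unfold gg
  fun_prop

theorem gg_ge {α γ : ℝ} (h : α ≤ γ) (θ : ℝ) : α ≤ gg α γ θ := by
  unfold gg
  nlinarith [Real.cos_le_one θ]

theorem gg_le {α γ : ℝ} (h : α ≤ γ) (θ : ℝ) : gg α γ θ ≤ γ := by
  unfold gg
  nlinarith [Real.neg_one_le_cos θ]

/-- the probability of the mode -/
noncomputable def pp (α γ θ : ℝ) : ℝ := (1 + √(1 - gg α γ θ)) / 2

/-- the derivative of the entropy along the chain -/
noncomputable def GG (α γ θ : ℝ) : ℝ :=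
  (Real.log (1 - pp α γ θ) - Real.log (pp α γ θ)) *
    (-((γ - α) * (Real.sin θ / 2)) / (2 * √(1 - gg α γ θ)) / 2)

theorem sq_pos {α γ : ℝ} (h : α ≤ γ) (h1 : γ < 1) (θ : ℝ) : 0 < √(1 - gg α γ θ) :=
  Real.sqrt_pos.2 (by linarith [gg_le h θ])

theorem sq_lt {α γ : ℝ} (h0 : 0 < α) (h : α ≤ γ) (θ : ℝ) : √(1 - gg α γ θ) < 1 := by
  rw [Real.sqrt_lt' one_pos]
  linarith [gg_ge h θ]

theorem pp_pos {α γ : ℝ} (h : α ≤ γ) (h1 : γ < 1) (θ : ℝ) : 0 < pp α γ θ := by
  unfold pp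
  linarith [sq_pos h h1 θ]

theorem pp_lt {α γ : ℝ} (h0 : 0 < α) (h : α ≤ γ) (θ : ℝ) : pp α γ θ < 1 := by
  unfold pp
  linarith [sq_lt h0 h θ]

theorem pp_cont (α γ : ℝ) : Continuous (pp α γ) := by
  unfold pp
  have := gg_cont α γ
  fun_prop

theorem hM_cont : Continuous hM := by
  unfold hM
  fun_prop

theorem GG_cont {α γ : ℝ} (h0 : 0 < α) (h : α ≤ γ) (h1 : γ < 1) : Continuous (GG α γ) := by
  unfold GG
  have hp := pp_cont α γ
  have hg := gg_cont α γ
  refine Continuous.mul (Continuous.sub ?_ ?_) ?_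
  · exact (continuous_const.sub hp).log fun θ => by
      have := pp_lt h0 h θ
      intro hh
      simp only [Pi.sub_apply] at hh
      linarith
  · exact hp.log fun θ => (pp_pos h h1 θ).ne'
  · refine Continuous.div_const (Continuous.div ?_ ?_ fun θ => ?_) _
    · fun_prop
    · fun_prop
    · have := sq_pos h h1 θ
      positivity

theorem F_deriv {α γ : ℝ} (h0 : 0 < α) (h : α ≤ γ) (h1 : γ < 1) (θ : ℝ) :
    HasDerivAt (fun θ => hM (gg α γ θ)) (GG α γ θ) θ := by
  have hg : HasDerivAt (fun θ => 1 - gg α γ θ) (-((γ - α) * (Real.sin θ / 2))) θ := by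
    have := (((((Real.hasDerivAt_cos θ).const_sub 1).div_const 2).const_mul
      (γ - α)).const_add α).const_sub 1
    simpa [gg] using this
  have hs := hg.sqrt (by linarith [gg_le h θ] : (1 - gg α γ θ) ≠ 0)
  have hp : HasDerivAt (pp α γ) (-((γ - α) * (Real.sin θ / 2)) / (2 * √(1 - gg α γ θ)) / 2) θ :=
    (hs.const_add 1).div_const 2
  exact HasDerivAt.comp (h₂ := Real.binEntropy) (h := pp α γ) θ
    (Real.hasDerivAt_binEntropy (pp_pos h h1 θ).ne' (pp_lt h0 h θ).ne) hp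

/-- the angles of the two families of modes -/
noncomputable def tA (n j : ℕ) : ℝ := Real.pi * (2 * (j : ℝ) + 1) / (2 * ((n : ℝ) + 1))

/-- the angles of the second family of modes -/
noncomputable def tB (n j : ℕ) : ℝ := Real.pi * ((j : ℝ) + 1) / ((n : ℝ) + 1)

theorem lim1 {α γ : ℝ} (h0 : 0 < α) (h : α ≤ γ) (h1 : γ < 1) :
    Tendsto (fun n : ℕ => ∑ j : Fin (n + 1), hM (gg α γ (tA n j)) -
      ∑ j : Fin n, hM (gg α γ (tB n j))) atTop (𝓝 ((hM α + hM γ) / 2)) := by
  have hmt := Pool.Agent.W583.GP.mid_trap (fun θ => hM (gg α γ θ)) (GG α γ)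
    (hM_cont.comp (gg_cont α γ)).continuousOn (GG_cont h0 h h1).continuousOn
    (fun θ _ => F_deriv h0 h h1 θ)
  have hlim := hmt.add_const ((hM α + hM γ) / 2)
  rw [zero_add] at hlim
  refine hlim.congr fun n => ?_
  have hn1 : (0 : ℝ) < (n : ℝ) + 1 := by positivity
  set F : ℝ → ℝ := fun θ => hM (gg α γ θ) with hF
  have hF0 : F 0 = hM α := by
    simp only [hF, gg, Real.cos_zero]
    norm_num
  have hFpi : F Real.pi = hM γ := by
    simp only [hF, gg, Real.cos_pi]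
    norm_num
  have e1 : ∑ j : Fin (n + 1), hM (gg α γ (tA n j)) =
      ∑ j ∈ range (n + 1), F (Real.pi * (2 * (j : ℝ) + 1) / (2 * ((n : ℝ) + 1))) := by
    rw [Finset.sum_range]
    rfl
  have e2 : ∑ j : Fin n, hM (gg α γ (tB n j)) =
      ∑ j ∈ range n, F (Real.pi * ((j : ℝ) + 1) / ((n : ℝ) + 1)) := by
    rw [Finset.sum_range]
    rfl
  rw [e1, e2, Finset.sum_sub_distrib, ← Finset.sum_div, Finset.sum_add_distrib]
  have e3 : ∑ j ∈ range (n + 1), F (Real.pi * (j : ℝ) / ((n : ℝ) + 1)) =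
      ∑ j ∈ range n, F (Real.pi * ((j : ℝ) + 1) / ((n : ℝ) + 1)) + hM α := by
    rw [Finset.sum_range_succ']
    have : F (Real.pi * ((0 : ℕ) : ℝ) / ((n : ℝ) + 1)) = hM α := by
      rw [Nat.cast_zero, mul_zero, zero_div, hF0]
    rw [this]
    congr 1
    refine Finset.sum_congr rfl fun j _ => ?_
    push_cast
    rfl
  have e4 : ∑ j ∈ range (n + 1), F (Real.pi * ((j : ℝ) + 1) / ((n : ℝ) + 1)) =
      ∑ j ∈ range n, F (Real.pi * ((j : ℝ) + 1) / ((n : ℝ) + 1)) + hM γ := by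
    rw [Finset.sum_range_succ]
    congr 1
    rw [mul_div_assoc, div_self hn1.ne', mul_one, hFpi]
  rw [e3, e4]
  ring

theorem lim2 (α γ : ℝ) :
    Tendsto (fun n : ℕ => ∑ j : Fin (n + 1), 1 / ((n : ℝ) + 1) * √(gg α γ (tA n j))) atTop
      (𝓝 ((1 / Real.pi) * ∫ θ in (0 : ℝ)..Real.pi, √(gg α γ θ))) := by
  have hc : Continuous fun x : ℝ => √(gg α γ (Real.pi * x)) := by
    have := gg_cont α γ
    fun_prop
  have h := Pool.Agent.W578.GP.tendsto_midpoint _ hc
  have e : ∫ x in (0 : ℝ)..1, √(gg α γ (Real.pi * x)) =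
      (1 / Real.pi) * ∫ θ in (0 : ℝ)..Real.pi, √(gg α γ θ) := by
    rw [intervalIntegral.integral_comp_mul_left (fun θ => √(gg α γ θ)) Real.pi_ne_zero]
    rw [mul_zero, mul_one, smul_eq_mul, one_div]
  rw [e] at h
  refine h.congr fun n => ?_
  refine Finset.sum_congr rfl fun j _ => ?_
  simp only [tA]
  rw [mul_div_assoc]

theorem col_of_orth {m : ℕ} {O : Fin m → Fin m → ℝ} (h : Pool.Agent.W259.GP.IsOrth O)
    (i l : Fin m) : ∑ j, O j i * O j l = if i = l then 1 else 0 := by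
  let A : Matrix (Fin m) (Fin m) ℝ := Matrix.of O
  have h1 : A * A.transpose = 1 := by
    ext j l
    rw [Matrix.mul_apply, Matrix.one_apply]
    exact h j l
  have h2 : A.transpose * A = 1 := mul_eq_one_comm.1 h1
  have h3 := congrFun (congrFun h2 i) l
  rw [Matrix.mul_apply, Matrix.one_apply] at h3
  exact h3

/-- the sites of the chain -/
theorem site (hv : S_value) {α γ : ℝ} (h0 : 0 < α) (h : α ≤ γ) (h1 : γ < 1) (n : ℕ) :
    ∃ (Ω : Type) (_ : Fintype Ω) (_ : DecidableEq Ω) (s : Site Ω (Fin 2)),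
      cc s = Real.log 2 + ∑ j : Fin n, hM (gg α γ (tB n j)) -
        ∑ j : Fin (n + 1), hM (gg α γ (tA n j)) ∧
      EH s = (1 - ∑ j : Fin (n + 1), 1 / ((n : ℝ) + 1) * √(gg α γ (tA n j))) / 2 := by
  obtain ⟨O, O', hO, hO', hsq, hQ⟩ := Pool.Agent.W417.GP.chain n
  have hQ' := hQ ((γ - α) / 4)
  obtain ⟨Ω, i1, i2, s, hs1, hs2⟩ := hv n O (fun j => gg α γ (tA n j)) O'
    (fun j => gg α γ (tB n j)) hO hO' (fun j => h0.le.trans (gg_ge h _))
    (fun j => (gg_le h _).trans_lt h1) (by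
      intro i l
      have hi := hQ' i l
      have c1 := col_of_orth hO i.succ l.succ
      have c2 := col_of_orth hO' i l
      have c3 : (if i.succ = l.succ then (1 : ℝ) else 0) = if i = l then 1 else 0 := by
        simp only [Fin.succ_inj]
      rw [c3, ← c2] at c1
      have e1 : ∑ k : Fin (n + 1), gg α γ (tA n k) * O k i.succ * O k l.succ =
          α * ∑ k, O k i.succ * O k l.succ +
            Pool.Agent.W259.GP.QM O (Pool.Agent.W259.GP.cA ((γ - α) / 4) n) i.succ l.succ := by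
        rw [Pool.Agent.W259.GP.QM, Finset.mul_sum, ← Finset.sum_add_distrib]
        refine Finset.sum_congr rfl fun k _ => ?_
        rw [gg, tA, Pool.Agent.W259.GP.cA]
        ring
      have e2 : ∑ k : Fin n, gg α γ (tB n k) * O' k i * O' k l =
          α * ∑ k, O' k i * O' k l +
            Pool.Agent.W259.GP.QM O' (Pool.Agent.W259.GP.cB ((γ - α) / 4) n) i l := by
        rw [Pool.Agent.W259.GP.QM, Finset.mul_sum, ← Finset.sum_add_distrib]
        refine Finset.sum_congr rfl fun k _ => ?_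
        rw [gg, tB, Pool.Agent.W259.GP.cB]
        ring
      rw [e1, e2, hi, c1])
  refine ⟨Ω, i1, i2, s, hs1, ?_⟩
  rw [hs2]
  congr 2
  refine Finset.sum_congr rfl fun j _ => ?_
  rw [hsq j]

theorem h_eq (x : ℝ) : h x = hM x / Real.log 2 := by
  unfold h H2 hM
  rw [Real.binEntropy_eq_negMulLog_add_negMulLog_one_sub]
  simp only [Real.negMulLog, Real.logb]
  have e1 : 1 - (1 + √(1 - x)) / 2 = 1 / 2 - 1 / 2 * √(1 - x) := by ring
  have e2 : 1 - (1 / 2 - 1 / 2 * √(1 - x)) = (1 + √(1 - x)) / 2 := by ring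
  rw [e1, e2]
  ring

/-- the energy of the chain -/
noncomputable def EE (α γ : ℝ) : ℝ :=
  (1 - (1 / Real.pi) * ∫ θ in (0 : ℝ)..Real.pi, √(gg α γ θ)) / 2

theorem EE_pos {α γ : ℝ} (h : α ≤ γ) (h1 : γ ≤ 1) (hα : α < 1) : 0 < EE α γ := by
  have hc : Continuous fun θ : ℝ => √(gg α γ θ) := by
    have := gg_cont α γ
    fun_prop
  have hpi := Real.pi_pos
  have key : (∫ θ in (0 : ℝ)..Real.pi, √(gg α γ θ)) < ∫ _θ in (0 : ℝ)..Real.pi, (1 : ℝ) := by
    refine intervalIntegral.integral_lt_integral_of_continuousOn_of_le_of_exists_lt hpi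
      hc.continuousOn continuousOn_const (fun θ _ => ?_) ⟨0, ⟨le_rfl, hpi.le⟩, ?_⟩
    · exact Real.sqrt_le_one.2 ((gg_le h θ).trans h1)
    · rw [Real.sqrt_lt' one_pos, gg, Real.cos_zero]
      norm_num
      exact hα
  rw [intervalIntegral.integral_const, smul_eq_mul, mul_one, sub_zero] at key
  have : (1 / Real.pi) * (∫ θ in (0 : ℝ)..Real.pi, √(gg α γ θ)) < 1 := by
    rw [one_div, inv_mul_lt_iff₀ hpi, mul_one]
    exact key
  unfold EE
  linarith

theorem gg_t (α γ t θ : ℝ) :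
    gg ((1 - t) * α + t / 2) ((1 - t) * γ + t / 2) θ = (1 - t) * gg α γ θ + t / 2 := by
  unfold gg
  ring

theorem EE_t {α γ t : ℝ} (h0 : 0 ≤ α) (h : α ≤ γ) (h1 : γ ≤ 1) (ht : 0 < t) (ht1 : t < 1) :
    EE ((1 - t) * α + t / 2) ((1 - t) * γ + t / 2) ≤ EE α γ + √t / 2 := by
  have hpi := Real.pi_pos
  have hc : Continuous fun θ : ℝ => √(gg α γ θ) := by
    have := gg_cont α γ
    fun_prop
  have hc' : Continuous fun θ : ℝ => √(gg ((1 - t) * α + t / 2) ((1 - t) * γ + t / 2) θ) := by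
    have := gg_cont ((1 - t) * α + t / 2) ((1 - t) * γ + t / 2)
    fun_prop
  have key : (∫ θ in (0 : ℝ)..Real.pi, √(gg α γ θ)) ≤
      ∫ θ in (0 : ℝ)..Real.pi, (√(gg ((1 - t) * α + t / 2) ((1 - t) * γ + t / 2) θ) + √t) := by
    refine intervalIntegral.integral_mono_on hpi.le (hc.intervalIntegrable _ _)
      ((hc'.add continuous_const).intervalIntegrable _ _) fun θ _ => ?_
    rw [gg_t]
    have g1 := gg_le h θ
    have g2 := gg_ge h θ
    have g3 : 0 ≤ (1 - t) * gg α γ θ + t / 2 := by nlinarith [mul_nonneg (by linarith : 0 ≤ 1 - t) (h0.trans g2)]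
    rw [Real.sqrt_le_left (by positivity), add_sq, Real.sq_sqrt g3, Real.sq_sqrt ht.le]
    have g4 : 0 ≤ 2 * √((1 - t) * gg α γ θ + t / 2) * √t := by positivity
    nlinarith
  rw [intervalIntegral.integral_add (hc'.intervalIntegrable _ _) (by simp),
    intervalIntegral.integral_const, smul_eq_mul, sub_zero] at key
  have k2 := mul_le_mul_of_nonneg_left key (by positivity : 0 ≤ 1 / Real.pi)
  have k3 : 1 / Real.pi * (Real.pi * √t) = √t := by
    field_simp
  rw [mul_add, k3] at k2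
  unfold EE
  linarith

/-- **FB-18.** -/
theorem t_ellip (hv : S_value) (hr : S_rate) : S_ellip := by
  intro α γ h0 h h1 hα
  have hlog : 0 < Real.log 2 := Real.log_pos (by norm_num)
  refine hr _ _ (EE_pos h h1 hα) fun ε hε => ?_
  -- choice of the perturbation
  have T1 : Tendsto (fun t : ℝ => √t / 2) (𝓝[>] 0) (𝓝 0) := by
    have : Continuous fun t : ℝ => √t / 2 := by fun_prop
    have := this.tendsto 0
    simp only [Real.sqrt_zero, zero_div] at this
    exact this.mono_left nhdsWithin_le_nhds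
  have T2 : Tendsto (fun t : ℝ => (hM ((1 - t) * α + t / 2) + hM ((1 - t) * γ + t / 2)) / 2 /
      Real.log 2) (𝓝[>] 0) (𝓝 ((hM α + hM γ) / 2 / Real.log 2)) := by
    have hc := hM_cont
    have : Continuous fun t : ℝ => (hM ((1 - t) * α + t / 2) + hM ((1 - t) * γ + t / 2)) / 2 /
      Real.log 2 := by fun_prop
    have := this.tendsto 0
    simp only [sub_zero, one_mul, zero_div, add_zero] at this
    exact this.mono_left nhdsWithin_le_nhds
  have E1 := T1.eventually_lt_const (half_pos hε)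
  have E2 := T2.eventually_lt_const (lt_add_of_pos_right _ (half_pos hε))
  have E3 : ∀ᶠ t : ℝ in 𝓝[>] 0, t ∈ Set.Ioo (0 : ℝ) 1 := Ioo_mem_nhdsGT one_pos
  obtain ⟨t, ht1, ht2, ht3⟩ := (E1.and (E2.and E3)).exists
  set α' := (1 - t) * α + t / 2 with hα'
  set γ' := (1 - t) * γ + t / 2 with hγ'
  have hα'0 : 0 < α' := by
    have := ht3.1
    have := ht3.2
    rw [hα']
    nlinarith [mul_nonneg (by linarith : 0 ≤ 1 - t) h0]
  have hαγ : α' ≤ γ' := by
    have := mul_le_mul_of_nonneg_left h (by linarith [ht3.2] : 0 ≤ 1 - t)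
    rw [hα', hγ']
    linarith
  have hγ'1 : γ' < 1 := by
    have := ht3.1
    have := mul_le_mul_of_nonneg_left h1 (by linarith [ht3.2] : 0 ≤ 1 - t)
    rw [hγ']
    linarith
  have L1 := (lim1 hα'0 hαγ hγ'1).div_const (Real.log 2)
  have L2 := ((lim2 α' γ').const_sub 1).div_const 2
  have F1 := L1.eventually_lt_const (lt_add_of_pos_right _ (half_pos hε))
  have F2 := L2.eventually_lt_const (lt_add_of_pos_right _ (half_pos hε))
  obtain ⟨n, hn1, hn2⟩ := (F1.and F2).exists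
  obtain ⟨Ω, i1, i2, s, hs1, hs2⟩ := site hv hα'0 hαγ hγ'1 n
  refine ⟨Ω, i1, i2, s, ?_, ?_⟩
  · rw [hs2]
    have e := EE_t h0 h h1 ht3.1 ht3.2
    have e' : EE α γ =
      (1 - (1 / Real.pi) * ∫ θ in (0 : ℝ)..Real.pi, √(α + (γ - α) * ((1 - Real.cos θ) / 2))) / 2 :=
      rfl
    rw [← e']
    have e'' : EE α' γ' = (1 - (1 / Real.pi) * ∫ θ in (0 : ℝ)..Real.pi, √(gg α' γ' θ)) / 2 := rfl
    rw [← e''] at hn2
    have e3 : EE α' γ' ≤ EE α γ + √t / 2 := e
    linarith
  · rw [hs1, h_eq, h_eq]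
    have e1 : 1 - (Real.log 2 + ∑ j : Fin n, hM (gg α' γ' (tB n j)) -
        ∑ j : Fin (n + 1), hM (gg α' γ' (tA n j))) / Real.log 2 =
        (∑ j : Fin (n + 1), hM (gg α' γ' (tA n j)) -
          ∑ j : Fin n, hM (gg α' γ' (tB n j))) / Real.log 2 := by
      field_simp
      ring
    rw [e1]
    have e2 : (hM α / Real.log 2 + hM γ / Real.log 2) / 2 = (hM α + hM γ) / 2 / Real.log 2 := by
      ring
    rw [e2]
    linarith

end Pool.Agent.W578.FB
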